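import Pool.Agent.helper80.HM.SpecD

/-!
# Row hm:NLI (MP_069684): the numbering of the vertices and the entries of the matrix
-/

set_option autoImplicit false

namespace Pool.Agent.HM

open Finset Pool.Agent.helper38.Neg Pool.Agent.helper55.NT

theorem NLI_c {n w s : ℕ} (P Q : Fin s → Fin (n + w + s)) (φ : Fin s → Bool → Bool → Bool)
    (o : Fin (n + w + s)) (α β : NV n w s) :
    (∃ b : Prop, ∀ x, ncon P Q φ o x α β ↔ b) ∨
      (∃ (i : Fin (n + w + s)) (b : Bool) (c : Fin n), α = Sum.inl (i, b) ∧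
        β = Sum.inr (Sum.inr (Sum.inl (some c))) ∧ ∀ x, ncon P Q φ o x α β ↔ b = x c) := by
  rcases α with ⟨i, b⟩ | ⟨g, b1, b2⟩ | (_ | c) | j | j
  · rcases β with ⟨i', b'⟩ | ⟨g, b1, b2⟩ | (_ | c) | j | j
    · exact Or.inl ⟨True, fun x => Iff.rfl⟩
    · exact Or.inl ⟨(i = P g → b = b1) ∧ (i = Q g → b = b2) ∧
        (i = Fin.natAdd (n + w) g → b = φ g b1 b2), fun x => Iff.rfl⟩
    · exact Or.inl ⟨i = o → b = true, fun x => Iff.rfl⟩
    · by_cases h : i = Fin.castAdd s (Fin.castAdd w c)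
      · exact Or.inr ⟨i, b, c, rfl, rfl, fun x => ⟨fun H => H h, fun H _ => H⟩⟩
      · exact Or.inl ⟨True, fun x => ⟨fun _ => trivial, fun _ H => absurd H h⟩⟩
    · exact Or.inl ⟨True, fun x => Iff.rfl⟩
    · exact Or.inl ⟨True, fun x => Iff.rfl⟩
  all_goals
    rcases β with ⟨i', b'⟩ | ⟨g, b1, b2⟩ | (_ | c) | j | j <;>
      exact Or.inl ⟨True, fun x => Iff.rfl⟩

theorem NLI_n {n w s : ℕ} (P Q : Fin s → Fin (n + w + s)) (φ : Fin s → Bool → Bool → Bool)
    (o : Fin (n + w + s)) (α β : NV n w s) :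
    (∃ b : Prop, ∀ x, nadj P Q φ o x α β ↔ b) ∨ (∃ c : Fin n, ∀ x, nadj P Q φ o x α β ↔ x c = true) ∨
      ∃ c : Fin n, ∀ x, nadj P Q φ o x α β ↔ x c = false := by
  by_cases h : ncls α ≠ none ∧ ncls β ≠ none ∧ ncls α ≠ ncls β
  swap
  · exact Or.inl ⟨False, fun x => ⟨fun H => h ⟨H.1, H.2.1, H.2.2.1⟩, fun H => H.elim⟩⟩
  have key : ∀ x, nadj P Q φ o x α β ↔ (ncon P Q φ o x α β ∧ ncon P Q φ o x β α) := fun x =>
    ⟨fun H => H.2.2.2, fun H => ⟨h.1, h.2.1, h.2.2, H⟩⟩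
  rcases NLI_c P Q φ o α β with ⟨b, hb⟩ | ⟨i, b, c, hα, hβ, H⟩
  · rcases NLI_c P Q φ o β α with ⟨b', hb'⟩ | ⟨i, b', c, hβ, hα, H⟩
    · exact Or.inl ⟨b ∧ b', fun x => by rw [key, hb, hb']⟩
    · have h1 : ∀ x, nadj P Q φ o x α β ↔ b' = x c := by
        intro x
        rw [key, H]
        subst hα hβ
        exact ⟨fun H => H.2, fun H => ⟨trivial, H⟩⟩
      cases b'
      · exact Or.inr (Or.inr ⟨c, fun x => by rw [h1]; exact eq_comm⟩)
      · exact Or.inr (Or.inl ⟨c, fun x => by rw [h1]; exact eq_comm⟩)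
  · have h1 : ∀ x, nadj P Q φ o x α β ↔ b = x c := by
      intro x
      rw [key, H]
      subst hα hβ
      exact ⟨fun H => H.1, fun H => ⟨H, trivial⟩⟩
    cases b
    · exact Or.inr (Or.inr ⟨c, fun x => by rw [h1]; exact eq_comm⟩)
    · exact Or.inr (Or.inl ⟨c, fun x => by rw [h1]; exact eq_comm⟩)

theorem NLI : NLI_stmt := by
  classical
  refine ⟨fun n w s => ⟨Fintype.equivFinOfCardEq ?_⟩, ?_⟩
  · simp only [NV, nM, Fintype.card_sum, Fintype.card_prod, Fintype.card_fin, Fintype.card_bool,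
      Fintype.card_option]
    ring
  · intro n w s e P Q φ o i
    rcases NLI_n P Q φ o (e.symm (finProdFinEquiv.symm i).1) (e.symm (finProdFinEquiv.symm i).2)
      with ⟨b, hb⟩ | ⟨c, hc⟩ | ⟨c, hc⟩
    · refine Or.inl ⟨bl b, fun x => ?_⟩
      unfold nmat
      rw [show (nadj P Q φ o x (e.symm (finProdFinEquiv.symm i).1)
        (e.symm (finProdFinEquiv.symm i).2)) = b from propext (hb x)]
    · refine Or.inr (Or.inl ⟨c, fun x => ?_⟩)
      unfold nmat
      rw [show (nadj P Q φ o x (e.symm (finProdFinEquiv.symm i).1)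
        (e.symm (finProdFinEquiv.symm i).2)) = (x c = true) from propext (hc x)]
      unfold bl
      cases x c <;> simp
    · refine Or.inr (Or.inr ⟨c, fun x => ?_⟩)
      unfold nmat
      rw [show (nadj P Q φ o x (e.symm (finProdFinEquiv.symm i).1)
        (e.symm (finProdFinEquiv.symm i).2)) = (x c = false) from propext (hc x)]
      unfold bl
      cases x c <;> simp

end Pool.Agent.HM
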