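import Pool.Agent.helper80.HM.SpecC
import Pool.Agent.helper23.HT.DBL

/-! Row hm:CRM (MP_069684). -/

set_option autoImplicit false

namespace Pool.Agent.HM

open Finset Pool.Agent.helper38.Neg Pool.Agent.helper55.NT

theorem CRM_lg_le (n : ℕ) : lg n ≤ n + 2 := by
  unfold lg
  exact Nat.log_le_self 2 (n + 2)

theorem CRM_pow_lg (n : ℕ) : 2 ^ lg n ≤ n + 2 := by
  unfold lg
  exact Nat.pow_log_le_self 2 (by omega)

theorem CRM (hUPM : UPM_stmt) (hEXP : EXP_stmt) : CRM_stmt := by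
  intro a t ha3 hac hct
  obtain ⟨c1, hc1⟩ := hac
  obtain ⟨c, hc⟩ := hct
  constructor
  · intro h A hA hmono
    obtain ⟨p, hp⟩ := h A hA
    refine ⟨Polynomial.C (18 * c1) * (Polynomial.X + 2) * Polynomial.C (c + 1) * (p + 1) *
      (Polynomial.X + 2) ^ (c + 1 + 3), fun n => ?_⟩
    obtain ⟨s, hs, C, o, hC⟩ := hp n
    have h3 := ha3 n
    have hmm : (a n - 1) / 2 + 1 = (a n + 1) / 2 := by omega
    have hn : n + 1 ≤ (c + 1) * ((a n - 1) / 2 + 1) ^ t n := by
      have h1 := hc n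
      rw [hmm]
      have h2 : 1 ≤ ((a n + 1) / 2) ^ t n := Nat.one_le_pow _ _ (by omega)
      rw [add_mul, one_mul]
      omega
    obtain ⟨s', hs', C', o', hH, hv⟩ := hUPM (a := a n) (t := t n) ((a n - 1) / 2) (fun x => C.val x o) C o
      (c + 1) (by omega) (by omega) (mon_of (hmono n) _ hC) (fun _ => rfl) hn
    refine ⟨s', hs'.trans ?_, C', o', hH, fun x => ?_⟩
    · simp only [Polynomial.eval_mul, Polynomial.eval_C, Polynomial.eval_add, Polynomial.eval_one,
        Polynomial.eval_pow, Polynomial.eval_X, Polynomial.eval_ofNat]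
      have h5 : (a n - 1) / 2 + 1 ≤ c1 * (n + 2) := by
        have h6 := hc1 n
        have h7 : c1 * lg n ≤ c1 * (n + 2) := Nat.mul_le_mul_left _ (CRM_lg_le n)
        omega
      calc 18 * ((a n - 1) / 2 + 1) * (c + 1) * (s + 1) * (n + 2) ^ (c + 1 + 3)
          ≤ 18 * (c1 * (n + 2)) * (c + 1) * (p.eval n + 1) * (n + 2) ^ (c + 1 + 3) := by
            gcongr
        _ = _ := by ring
    · rw [hv]
      exact hC x
  · intro h
    refine Pool.Agent.helper88.HT.DBL.1 fun A hA hmono => ?_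
    obtain ⟨p, hp⟩ := h A hA hmono
    refine ⟨5 * (Polynomial.X + 2) ^ c1 * p + 1, fun n => ?_⟩
    obtain ⟨s, hs, C, o, hH, hC⟩ := hp n
    obtain ⟨s', hs', C', o', hv⟩ := hEXP C o
    refine ⟨s', hs'.trans ?_, C', o', fun x => ?_⟩
    · simp only [Polynomial.eval_mul, Polynomial.eval_add, Polynomial.eval_one,
        Polynomial.eval_pow, Polynomial.eval_X, Polynomial.eval_ofNat]
      have h5 : 2 ^ a n ≤ (n + 2) ^ c1 := by
        calc 2 ^ a n ≤ 2 ^ (c1 * lg n) := Nat.pow_le_pow_right (by norm_num) (hc1 n)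
          _ = (2 ^ lg n) ^ c1 := by rw [← pow_mul, mul_comm]
          _ ≤ (n + 2) ^ c1 := Nat.pow_le_pow_left (CRM_pow_lg n) _
      gcongr
    · rw [hv]
      exact hC x

end Pool.Agent.HM
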