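import Pool.Agent.helper80.HM.SpecC
import Pool.Agent.helper23.HT.DBL

/-! Row hm:CRN (MP_069684). -/

set_option autoImplicit false

namespace Pool.Agent.HM

open Finset Pool.Agent.helper38.Neg Pool.Agent.helper55.NT

theorem CRN_size (n s m c c1 k : ℕ) (hm : m + 1 ≤ c1 * lg n ^ c1) (hs : s ≤ 2 ^ (k * lg n ^ k)) :
    18 * (m + 1) * (c * lg n ^ c + 1) * (s + 1) * (n + 2) ^ (c * lg n ^ c + 1 + 3) ≤
      2 ^ ((3 * c + c1 + k + 20) * lg n ^ (3 * c + c1 + k + 20)) := by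
  set K := 3 * c + c1 + k + 20 with hK
  set L := lg n with hL
  have hL1 : 1 ≤ L := lg_pos n
  have b1 : 18 ≤ 2 ^ 5 := by norm_num
  have b0 : m + 1 ≤ 2 ^ (c1 * L ^ c1) := hm.trans Nat.lt_two_pow_self.le
  have b2 : c * L ^ c + 1 ≤ 2 ^ (c * L ^ c + 1) := Nat.lt_two_pow_self.le
  have b3 : s + 1 ≤ 2 ^ (k * L ^ k + 1) := by
    rw [pow_succ]
    have : 1 ≤ 2 ^ (k * L ^ k) := Nat.one_le_two_pow
    omega
  have b4 : (n + 2) ^ (c * L ^ c + 1 + 3) ≤ 2 ^ ((L + 1) * (c * L ^ c + 1 + 3)) := by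
    rw [pow_mul]
    exact Nat.pow_le_pow_left (lt_two_pow_lg n).le _
  have e0 : 18 * (m + 1) * (c * L ^ c + 1) * (s + 1) * (n + 2) ^ (c * L ^ c + 1 + 3)
      ≤ 2 ^ 5 * 2 ^ (c1 * L ^ c1) * 2 ^ (c * L ^ c + 1) * 2 ^ (k * L ^ k + 1) *
        2 ^ ((L + 1) * (c * L ^ c + 1 + 3)) := by
    gcongr
  refine e0.trans ?_
  rw [← pow_add, ← pow_add, ← pow_add, ← pow_add]
  refine Nat.pow_le_pow_right (by norm_num) ?_
  have a0 : L ^ c1 ≤ L ^ K := Nat.pow_le_pow_right hL1 (by omega)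
  have a1 : L ^ c ≤ L ^ K := Nat.pow_le_pow_right hL1 (by omega)
  have a2 : L ^ k ≤ L ^ K := Nat.pow_le_pow_right hL1 (by omega)
  have a3 : L ^ (c + 1) ≤ L ^ K := Nat.pow_le_pow_right hL1 (by omega)
  have a4 : L ≤ L ^ K := Nat.le_self_pow (by omega) _
  have a5 : 1 ≤ L ^ K := Nat.one_le_pow _ _ hL1
  have e1 : 5 + c1 * L ^ c1 + (c * L ^ c + 1) + (k * L ^ k + 1) + (L + 1) * (c * L ^ c + 1 + 3) =
      2 * (c * L ^ c) + c1 * L ^ c1 + k * L ^ k + c * L ^ (c + 1) + 4 * L + 11 := by ring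
  have e2 : K * L ^ K = 3 * (c * L ^ K) + c1 * L ^ K + k * L ^ K + 20 * L ^ K := by rw [hK]; ring
  rw [e1, e2]
  have c0 : c1 * L ^ c1 ≤ c1 * L ^ K := Nat.mul_le_mul_left _ a0
  have c1' : c * L ^ c ≤ c * L ^ K := Nat.mul_le_mul_left _ a1
  have c2 : k * L ^ k ≤ k * L ^ K := Nat.mul_le_mul_left _ a2
  have c3 : c * L ^ (c + 1) ≤ c * L ^ K := Nat.mul_le_mul_left _ a3
  omega

theorem CRN_back (n s A c1 k : ℕ) (ha : A ≤ c1 * lg n ^ c1) (hs : s ≤ 2 ^ (k * lg n ^ k)) :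
    5 * 2 ^ A * s + 1 ≤ 2 ^ ((c1 + k + 3) * lg n ^ (c1 + k + 3)) := by
  set K := c1 + k + 3 with hK
  set L := lg n with hL
  have hL1 : 1 ≤ L := lg_pos n
  have b0 : 2 ^ A ≤ 2 ^ (c1 * L ^ c1) := Nat.pow_le_pow_right (by norm_num) ha
  have e0 : 5 * 2 ^ A * s + 1 ≤ 2 ^ 3 * (2 ^ (c1 * L ^ c1) * 2 ^ (k * L ^ k)) := by
    have h1 : 2 ^ A * s ≤ 2 ^ (c1 * L ^ c1) * 2 ^ (k * L ^ k) := Nat.mul_le_mul b0 hs
    have h2 : 1 ≤ 2 ^ (c1 * L ^ c1) * 2 ^ (k * L ^ k) :=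
      Nat.mul_pos (Nat.two_pow_pos _) (Nat.two_pow_pos _)
    rw [mul_assoc]
    omega
  refine e0.trans ?_
  rw [← pow_add, ← pow_add]
  refine Nat.pow_le_pow_right (by norm_num) ?_
  have a0 : L ^ c1 ≤ L ^ K := Nat.pow_le_pow_right hL1 (by omega)
  have a2 : L ^ k ≤ L ^ K := Nat.pow_le_pow_right hL1 (by omega)
  have a5 : 1 ≤ L ^ K := Nat.one_le_pow _ _ hL1
  have e2 : K * L ^ K = c1 * L ^ K + k * L ^ K + 3 * L ^ K := by rw [hK]; ring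
  rw [e2]
  have c0 : c1 * L ^ c1 ≤ c1 * L ^ K := Nat.mul_le_mul_left _ a0
  have c2 : k * L ^ k ≤ k * L ^ K := Nat.mul_le_mul_left _ a2
  omega

theorem CRN (hUPM : UPM_stmt) (hEXP : EXP_stmt) : CRN_stmt := by
  intro a t ha3 hac hct
  obtain ⟨c1, hc1⟩ := hac
  obtain ⟨c, hc⟩ := hct
  constructor
  · intro h A hA hmono
    obtain ⟨k, hk⟩ := h A hA
    refine ⟨3 * c + c1 + k + 20, fun n => ?_⟩
    obtain ⟨s, hs, C, o, hC⟩ := hk n
    have h3 := ha3 n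
    have hmm : (a n - 1) / 2 + 1 = (a n + 1) / 2 := by omega
    have hn : n + 1 ≤ (c * lg n ^ c + 1) * ((a n - 1) / 2 + 1) ^ t n := by
      have h1 := hc n
      rw [hmm]
      have h2 : 1 ≤ ((a n + 1) / 2) ^ t n := Nat.one_le_pow _ _ (by omega)
      rw [add_mul, one_mul]
      omega
    obtain ⟨s', hs', C', o', hH, hv⟩ := hUPM (a := a n) (t := t n) ((a n - 1) / 2) (fun x => C.val x o) C o
      (c * lg n ^ c + 1) (by omega) (by omega) (mon_of (hmono n) _ hC) (fun _ => rfl) hn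
    refine ⟨s', hs'.trans (CRN_size n s _ c c1 k ?_ hs), C', o', hH, fun x => ?_⟩
    · have := hc1 n
      omega
    · rw [hv]
      exact hC x
  · intro h
    refine Pool.Agent.helper88.HT.DBL.2 fun A hA hmono => ?_
    obtain ⟨k, hk⟩ := h A hA hmono
    refine ⟨c1 + k + 3, fun n => ?_⟩
    obtain ⟨s, hs, C, o, hH, hC⟩ := hk n
    obtain ⟨s', hs', C', o', hv⟩ := hEXP C o
    refine ⟨s', hs'.trans (CRN_back n s (a n) c1 k (hc1 n) hs), C', o', fun x => ?_⟩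
    rw [hv]
    exact hC x

end Pool.Agent.HM
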