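import Pool.Agent.helper80.HM.SpecB

/-! Row hm:ASM (MP_069684). -/

set_option autoImplicit false

namespace Pool.Agent.HM

open Finset Pool.Agent.helper33.Mod

theorem ASM_step (hLCG : LCG_stmt) (hREC : REC_stmt) (hUNI : UNI_stmt)
    {M t S k c σ l L N : ℕ} {g : Fin S → Inp M → Bool} {lv : Fin S → ℕ} (d : ℕ)
    (V : Finset (Fin M)) (β : Inp M)
    (hB : ∀ (F : Fin S → Finset (Finset (Fin M))) (i : Fin S), lv i ≤ d →
      ∃ B, Loc M t S k c σ l L N g lv d V β (Function.update F i B) i) :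
    ∃ F : Fin S → Finset (Finset (Fin M)), AppF M t S k c σ l L N g lv d V β F := by
  obtain ⟨F, hF⟩ := hREC (S := S) (α := Finset (Finset (Fin M)))
    (fun F i => lv i ≤ d → Loc M t S k c σ l L N g lv d V β F i) ⟨∅⟩
    (fun F F' i h hP hl => hLCG d V β F F' i h (hP hl))
    (fun F i => by
      by_cases hi : lv i ≤ d
      · obtain ⟨B, hBB⟩ := hB F i hi
        exact ⟨B, fun _ => hBB⟩
      · exact ⟨∅, fun h => absurd h hi⟩)
  exact ⟨F, hUNI d V β F hF⟩

theorem ASM (hEET : EET_stmt) (hNDM : NDM_stmt) (hLCG : LCG_stmt) (hLIN : LIN_stmt) (hLMO : LMO_stmt)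
    (hLAL : LAL_stmt) (hREC : REC_stmt) (hUNI : UNI_stmt) : ASM_stmt := by
  intro M a t S k c σ l L N g lv hP hR d
  have hnd := hNDM hP hEET
  induction d with
  | zero =>
    intro _ V hV β
    refine ASM_step hLCG hREC hUNI 0 V β fun F i hi => ?_
    rcases hR.step i with ⟨e, he⟩ | ⟨r, hr, J, φ, hJ, hx, h | h⟩
    · exact hLIN 0 V β F i e hP he
    · exact hLMO 0 V β F i J φ hP hV hr hJ hx h.1 fun j => (h.2 j).trans hi
    · exact absurd h.1 (by omega)
  | succ d ih =>
    intro hd V hV β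
    have hApp := ih (by omega)
    refine ASM_step hLCG hREC hUNI (d + 1) V β fun F i hi => ?_
    rcases hR.step i with ⟨e, he⟩ | ⟨r, hr, J, φ, hJ, hx, h | h⟩
    · exact hLIN (d + 1) V β F i e hP he
    · exact hLMO (d + 1) V β F i J φ hP ((hnd.2.1 (d + 1)).trans hV) hr hJ hx h.1
        fun j => (h.2 j).trans hi
    · exact hLAL d V β F i J φ hP hR hd hApp hV hr hx fun j => by
        have := h.2 j
        omega

end Pool.Agent.HM
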