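import Pool.Agent.helper80.HM.SpecA

/-! Row hm:AVG (MP_069684). -/

set_option autoImplicit false

namespace Pool.Agent.HM

open Finset Pool.Agent.helper33.Mod

theorem AVG (hKSC : KSC_stmt) : AVG_stmt := by
  intro M k W T X n' τ hWT hTk hkn hnW hX hτ
  by_contra hcon
  push Not at hcon
  obtain ⟨j, hj⟩ : ∃ j, j = k - T.card := ⟨_, rfl⟩
  have hjn : j ≤ n' := by omega
  have hKS : ∀ U ⊆ W, (KS k (U ∪ T) T).card = U.card.choose j := by
    intro U hU
    rw [hKSC (U ∪ T) T subset_union_right hTk, card_union_of_disjoint (hWT.mono_left hU),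
      Nat.add_sub_cancel, ← hj]
  have hsum : (∑ U ∈ powersetCard n' W, ((Xb X U T).card : ℝ)) ≤
      ∑ _U ∈ powersetCard n' W, τ * (n'.choose j : ℝ) := by
    apply sum_le_sum
    intro U hU
    rw [mem_powersetCard] at hU
    have := hcon U hU.1 hU.2
    rw [hKS U hU.1, hU.2] at this
    exact this
  have hleft : ∑ U ∈ powersetCard n' W, (Xb X U T).card = X.card * (W.card - j).choose (n' - j) := by
    unfold Xb
    simp_rw [card_filter]
    rw [sum_comm, card_eq_sum_ones, sum_mul]
    apply sum_congr rfl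
    intro Q hQ
    have hQ' := mem_KS.1 (hX hQ)
    have hQT : (Q \ T).card = j := by
      rw [card_sdiff_of_subset hQ'.2.2, hQ'.2.1, hj]
    have hsub : Q \ T ⊆ W := by
      intro v hv
      rw [mem_sdiff] at hv
      rcases mem_union.1 (hQ'.1 hv.1) with h | h
      · exact h
      · exact absurd h hv.2
    have h1 := hKSC (k := n') W (Q \ T) hsub (by rw [hQT]; exact hjn)
    rw [hQT] at h1
    rw [one_mul, ← h1, KS, card_filter]
    apply sum_congr rfl
    intro U _
    have hiff : (T ⊆ Q ∧ Q ⊆ U ∪ T) ↔ Q \ T ⊆ U := by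
      constructor
      · rintro ⟨_, h⟩ v hv
        rw [mem_sdiff] at hv
        rcases mem_union.1 (h hv.1) with h | h
        · exact h
        · exact absurd h hv.2
      · intro h
        refine ⟨hQ'.2.2, fun v hv => ?_⟩
        by_cases hvT : v ∈ T
        · exact mem_union_right _ hvT
        · exact mem_union_left _ (h (mem_sdiff.2 ⟨hv, hvT⟩))
    by_cases hc : Q \ T ⊆ U
    · rw [if_pos (hiff.2 hc), if_pos hc]
    · rw [if_neg (fun h => hc (hiff.1 h)), if_neg hc]
  rw [sum_const, card_powersetCard, nsmul_eq_mul] at hsum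
  have hleft' : (∑ U ∈ powersetCard n' W, ((Xb X U T).card : ℝ)) =
      (X.card : ℝ) * ((W.card - j).choose (n' - j) : ℝ) := by
    exact_mod_cast hleft
  rw [hleft'] at hsum
  have hmul : ((W.card.choose n' : ℕ) : ℝ) * (n'.choose j : ℝ) =
      (W.card.choose j : ℝ) * ((W.card - j).choose (n' - j) : ℝ) := by
    exact_mod_cast Nat.choose_mul (n := W.card) hjn
  have hpos : (0 : ℝ) < ((W.card - j).choose (n' - j) : ℝ) := by
    exact_mod_cast Nat.choose_pos (Nat.sub_le_sub_right hnW j)
  have hKW := hKS W (Subset.refl _)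
  rw [hKW] at hτ
  have h5 : (X.card : ℝ) * ((W.card - j).choose (n' - j) : ℝ) ≤
      (τ * (W.card.choose j : ℝ)) * ((W.card - j).choose (n' - j) : ℝ) := by
    refine hsum.trans (le_of_eq ?_)
    calc ((W.card.choose n' : ℕ) : ℝ) * (τ * (n'.choose j : ℝ))
        = τ * (((W.card.choose n' : ℕ) : ℝ) * (n'.choose j : ℝ)) := by ring
      _ = _ := by rw [hmul]; ring
  exact absurd (le_of_mul_le_mul_right h5 hpos) (not_le.2 hτ)

end Pool.Agent.HM
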