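import Pool.Agent.helper80.HM.SpecB

/-! Row hm:BGR (MP_069684). -/

set_option autoImplicit false

namespace Pool.Agent.HM

open Finset Pool.Agent.helper33.Mod

/-- the colouring of all vertices -/
def BGR_col {M k κ m : ℕ} (h1 : 1 ≤ k) (h2 : k ≤ κ) (h3 : M - m ≤ κ - k) (h : Fin M → Fin (k - 1)) (v : Fin M) :
    Fin (κ - 1) :=
  if hv : v.val < m then ⟨(h v).val, lt_of_lt_of_le (h v).2 (by omega)⟩
  else ⟨(k - 1) + (v.val - m), by have := v.2; omega⟩

theorem BGR : BGR_stmt := by
  intro M k κ f hf hsep hk hkκ hM
  obtain ⟨m, hm⟩ : ∃ m, m = M - (κ - k) := ⟨_, rfl⟩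
  have hmM : m ≤ M := by omega
  obtain ⟨V, hVd⟩ : ∃ V : Finset (Fin M), V = univ.map (Fin.castLEEmb hmM) := ⟨_, rfl⟩
  have hVc : V.card = m := by rw [hVd, card_map, card_univ, Fintype.card_fin]
  have hVm : ∀ v : Fin M, v ∈ V ↔ v.val < m := by
    intro v
    rw [hVd, mem_map]
    constructor
    · rintro ⟨x, _, rfl⟩
      exact x.2
    · intro h
      exact ⟨⟨v.val, h⟩, mem_univ _, rfl⟩
  refine ⟨V, fun i => decide ((finProdFinEquiv.symm i).1 ≠ (finProdFinEquiv.symm i).2 ∧
    ¬ ((finProdFinEquiv.symm i).1 ∈ V ∧ (finProdFinEquiv.symm i).2 ∈ V)), ?_, ?_, ?_⟩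
  · rw [hVc, hm]
  · intro Q hQV hQ
    have hcard : (Q ∪ Vᶜ).card = κ := by
      have hd : Disjoint Q Vᶜ := by
        rw [Finset.disjoint_left]
        intro v hv hv'
        exact (mem_compl.1 hv') (hQV hv)
      rw [card_union_of_disjoint hd, card_compl, Fintype.card_fin, hVc, hQ]
      omega
    have h1 := hsep.1 (Q ∪ Vᶜ) hcard
    refine mono_true hf ?_ h1
    intro i
    unfold orI gQ
    rw [Bool.le_iff_imp]
    simp only [decide_eq_true_eq, Bool.or_eq_true, mem_union, mem_compl]
    rintro ⟨hu, hv, huv⟩
    by_cases hV : (finProdFinEquiv.symm i).1 ∈ V ∧ (finProdFinEquiv.symm i).2 ∈ V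
    · left
      refine ⟨?_, ?_, huv⟩
      · rcases hu with hu | hu
        · exact hu
        · exact absurd hV.1 hu
      · rcases hv with hv | hv
        · exact hv
        · exact absurd hV.2 hv
    · exact Or.inr ⟨huv, hV⟩
  · intro h
    refine mono_false hf ?_ (hsep.2 (BGR_col hk hkκ (by omega : M - m ≤ κ - k) h))
    intro i
    unfold orI gV gH
    rw [Bool.le_iff_imp]
    simp only [decide_eq_true_eq, Bool.or_eq_true]
    intro hor
    unfold BGR_col
    rcases hor with ⟨hu, hv, hne⟩ | ⟨hne, hV⟩
    · rw [hVm] at hu hv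
      rw [dif_pos hu, dif_pos hv]
      intro he
      have he' := congrArg Fin.val he
      simp only at he'
      exact hne (Fin.ext he')
    · rw [hVm, hVm] at hV
      by_cases hu : (finProdFinEquiv.symm i).1.val < m
      · have hv : ¬ (finProdFinEquiv.symm i).2.val < m := fun hv => hV ⟨hu, hv⟩
        rw [dif_pos hu, dif_neg hv]
        intro he
        have he' := congrArg Fin.val he
        have := (h (finProdFinEquiv.symm i).1).2
        simp only at he'
        omega
      · by_cases hv : (finProdFinEquiv.symm i).2.val < m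
        · rw [dif_neg hu, dif_pos hv]
          intro he
          have he' := congrArg Fin.val he
          have := (h (finProdFinEquiv.symm i).2).2
          simp only at he'
          omega
        · rw [dif_neg hu, dif_neg hv]
          intro he
          have he' := congrArg Fin.val he
          simp only at he'
          apply hne
          apply Fin.ext
          omega

end Pool.Agent.HM
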